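import Pool.Agent.H654R5.PT.Stm
import Pool.Agent.Helper344.CompList
import Pool.Agent.H51R5.PT.CP3

/-!
# CPT: the machine is computable
-/

namespace Pool.Agent.H654R5.PT.CPT

open Primrec Pool.Agent.NPC Pool.Agent.Helper344

theorem find_eq {α : Type} (l : List α) (p : α → Bool) :
    l.find? p = (l.filterMap (fun a => if p a = true then some a else none)).head? := by
  induction l with
  | nil => rfl
  | cons a l ih =>
    rw [List.find?_cons, List.filterMap_cons]
    by_cases h : p a = true
    · simp [h]
    · simp only [Bool.not_eq_true] at h
      simp only [h]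
      simpa using ih

theorem find_eq' {α : Type} (l : List α) (p : α → Bool) :
    l.find? p = l.findSome? (fun a => _root_.cond (p a) (some a) none) := by
  induction l with
  | nil => rfl
  | cons a l ih =>
    rw [List.find?_cons, List.findSome?_cons]
    cases p a
    · simpa using ih
    · rfl

theorem prim_gI : Primrec gI := by
  unfold gI
  have h1 : Primrec (fun m : ℕ => (((List.range (Nat.size m + 1)).map (fun i => 2 ^ (i + 1))).filterMap
      (fun g => if decide (Nat.size m ≤ g) = true then some g else none)).head?) := by
    refine list_head?.comp (listFilterMap ?_ ?_)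
    · exact list_map (list_range.comp (Primrec.succ.comp H544R2.nat_size))
        (H544R2.nat_pow.comp (Primrec.const 2) (Primrec.succ.comp snd)).to₂
    · refine (Primrec.ite (c := fun x : ℕ × ℕ => decide (Nat.size x.1 ≤ x.2) = true) ?_
        (option_some.comp snd) (Primrec.const none)).to₂
      exact (Primrec.nat_le.comp (H544R2.nat_size.comp fst) snd).of_eq fun x => by simp
  refine (option_getD.comp (h1.of_eq fun m => (find_eq _ _).symm) (Primrec.const 2)).of_eq
    fun m => rfl

theorem prim_item : Primrec item := by
  unfold item padTo
  have h0 : Primrec (fun e : List Bool => e ++ [true]) :=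
    list_append.comp Primrec.id (Primrec.const [true])
  refine list_append.comp h0 ?_
  have h1 : Primrec (fun e : List Bool => (List.range (2 ^ gI e.length - (e ++ [true]).length)).map
      (fun _ => false)) := by
    refine list_map (list_range.comp (Primrec.nat_sub.comp (H544R2.nat_pow.comp (Primrec.const 2)
      (prim_gI.comp list_length)) (list_length.comp h0))) (Primrec.const false).to₂
  refine h1.of_eq fun e => ?_
  simp

theorem prim_eT : Primrec eT := by
  unfold eT
  refine option_bind Primrec.decode ?_
  refine (Primrec.ite (c := fun x : ℕ × (List Bool × ℕ) => (H544R2.Vn x.2.2 x.2.1).isSome = true)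
    ?_ (option_some.comp (fst.comp snd)) (Primrec.const none)).to₂
  exact Primrec.eq.comp (option_isSome.comp (H544R2.prim_Vn.comp
    (Primrec.pair (snd.comp snd) (fst.comp snd)))) (Primrec.const true)

/-- the list of the assignments -/
abbrev St := List ((ℕ × List Bool) × List Bool)

theorem comp_not {α : Type} [Primcodable α] {f : α → Bool} (hf : Computable f) :
    Computable (fun a => !(f a)) := Primrec.not.to_comp.comp hf

theorem comp_and {α : Type} [Primcodable α] {f g : α → Bool} (hf : Computable f)
    (hg : Computable g) : Computable (fun a => f a && g a) := Primrec.and.to_comp.comp hf hg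

theorem comp_or {α : Type} [Primcodable α] {f g : α → Bool} (hf : Computable f)
    (hg : Computable g) : Computable (fun a => f a || g a) := Primrec.or.to_comp.comp hf hg

theorem comp_deq {α β : Type} [Primcodable α] [Primcodable β] [DecidableEq β] {f g : α → β}
    (hf : Computable f) (hg : Computable g) : Computable (fun a => decide (f a = g a)) :=
  CL.decide_eq'.comp hf hg

theorem comp_two {α β γ δ : Type} [Primcodable α] [Primcodable β] [Primcodable γ] [Primcodable δ]
    {D : β → γ → δ} {f : α → β} {g : α → γ} (hD : Computable (fun x : β × γ => D x.1 x.2))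
    (hf : Computable f) (hg : Computable g) : Computable (fun a => D (f a) (g a)) := by
  have h := hD.comp (hf.pair hg)
  exact h

section
variable (D : ℕ → (ℕ × List Bool) → Bool) (cs : List Bool → List (ℕ × List Bool))

/-- the item is to be moved -/
def anyG (n : ℕ) (S : St) (e : List Bool) : Bool := S.any (fun p => decide (p.2 = e) && !D n p.1)

/-- the new cell -/
def findG (n : ℕ) (S : St) (e : List Bool) : Option (ℕ × List Bool) :=
  (cs e).find? (fun c => !D n c && !S.any (fun p => decide (p.1 = c)))

/-- one step for an item -/
def stepE (n : ℕ) (S : St) (e : List Bool) : St :=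
  _root_.cond (anyG D n S e) S (Option.casesOn (motive := fun _ => St) (findG D cs n S e) S
    (fun c => (c, e) :: S))

variable {D cs}

theorem comp_anyG (hD : Computable (fun x : ℕ × (ℕ × List Bool) => D x.1 x.2)) :
    Computable (fun y : (ℕ × St) × List Bool => anyG D y.1.1 y.1.2 y.2) := by
  unfold anyG
  refine CL.list_any (f := fun y : (ℕ × St) × List Bool => y.1.2)
    (p := fun y p => decide (p.2 = y.2) && !D y.1.1 p.1)
    (Computable.snd.comp Computable.fst) ?_
  refine comp_and (f := fun z : ((ℕ × St) × List Bool) × ((ℕ × List Bool) × List Bool) =>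
      decide (z.2.2 = z.1.2)) (g := fun z => !D z.1.1.1 z.2.1) (comp_deq (f := fun z :
      ((ℕ × St) × List Bool) × ((ℕ × List Bool) × List Bool) => z.2.2) (g := fun z => z.1.2)
      (Computable.snd.comp Computable.snd) (Computable.snd.comp Computable.fst)) (comp_not ?_)
  exact comp_two (D := D) (f := fun z : ((ℕ × St) × List Bool) × ((ℕ × List Bool) × List Bool) =>
    z.1.1.1) (g := fun z => z.2.1) hD (Computable.fst.comp (Computable.fst.comp Computable.fst))
    (Computable.fst.comp Computable.snd)

theorem comp_findG (hD : Computable (fun x : ℕ × (ℕ × List Bool) => D x.1 x.2))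
    (hc : Computable cs) :
    Computable (fun y : (ℕ × St) × List Bool => findG D cs y.1.1 y.1.2 y.2) := by
  have h4 : Computable₂ (fun (y : (ℕ × St) × List Bool) (c : ℕ × List Bool) =>
      _root_.cond (!D y.1.1 c && !y.1.2.any (fun p => decide (p.1 = c))) (some c) none) := by
    refine Computable.cond (comp_and (comp_not ?_) (comp_not ?_))
      (Computable.option_some.comp Computable.snd) (Computable.const none)
    · exact comp_two (D := D) (f := fun z : ((ℕ × St) × List Bool) × (ℕ × List Bool) => z.1.1.1)
        (g := fun z => z.2) hD (Computable.fst.comp (Computable.fst.comp Computable.fst))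
        Computable.snd
    · refine CL.list_any (f := fun z : ((ℕ × St) × List Bool) × (ℕ × List Bool) => z.1.1.2)
        (p := fun z p => decide (p.1 = z.2)) (Computable.snd.comp (Computable.fst.comp
          Computable.fst)) ?_
      exact comp_deq (f := fun z : (((ℕ × St) × List Bool) × (ℕ × List Bool)) ×
        ((ℕ × List Bool) × List Bool) => z.2.1) (g := fun z => z.1.2)
        (Computable.fst.comp Computable.snd) (Computable.snd.comp Computable.fst)
  refine (CL.list_findSome? (f := fun y : (ℕ × St) × List Bool => cs y.2)
    (hc.comp Computable.snd) h4).of_eq fun y => ?_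
  unfold findG
  exact (find_eq' _ _).symm

theorem comp_stepE (hD : Computable (fun x : ℕ × (ℕ × List Bool) => D x.1 x.2))
    (hc : Computable cs) :
    Computable (fun y : (ℕ × St) × List Bool => stepE D cs y.1.1 y.1.2 y.2) := by
  unfold stepE
  refine Computable.cond (comp_anyG hD) (Computable.snd.comp Computable.fst) ?_
  refine Computable.option_casesOn (o := fun y : (ℕ × St) × List Bool => findG D cs y.1.1 y.1.2 y.2)
    (f := fun y : (ℕ × St) × List Bool => y.1.2)
    (g := fun y c => (c, y.2) :: y.1.2) (comp_findG hD hc) (Computable.snd.comp Computable.fst) ?_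
  exact Computable.list_cons.comp (Computable.pair Computable.snd
    (Computable.snd.comp Computable.fst)) (Computable.snd.comp (Computable.fst.comp
      Computable.fst))

theorem comp_stepO {t : ℕ → Option (List Bool)} (ht : Computable t)
    (hD : Computable (fun x : ℕ × (ℕ × List Bool) => D x.1 x.2)) (hc : Computable cs) :
    Computable (fun x : ℕ × St => (Option.casesOn (motive := fun _ => St) (t x.1) x.2
      (fun e => stepE D cs x.1 x.2 e) : St)) :=
  Computable.option_casesOn (o := fun x : ℕ × St => t x.1)
    (f := fun x : ℕ × St => x.2) (g := fun x e => stepE D cs x.1 x.2 e)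
    (ht.comp Computable.fst) Computable.snd (comp_stepE hD hc)

/-- the run -/
def runG (D : ℕ → (ℕ × List Bool) → Bool) (cs : List Bool → List (ℕ × List Bool))
    (t : ℕ → Option (List Bool)) : ℕ → St
  | 0 => []
  | n + 1 => Option.casesOn (motive := fun _ => St) (t n) (runG D cs t n)
      (fun e => stepE D cs n (runG D cs t n) e)

theorem comp_runG {t : ℕ → Option (List Bool)} (ht : Computable t)
    (hD : Computable (fun x : ℕ × (ℕ × List Bool) => D x.1 x.2)) (hc : Computable cs) :
    Computable (fun n : ℕ => runG D cs t n) := by
  refine (Computable.nat_rec (f := fun n : ℕ => n) (g := fun _ : ℕ => ([] : St))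
    (h := fun _ (p : ℕ × St) => (Option.casesOn (motive := fun _ => St) (t p.1) p.2
      (fun e => stepE D cs p.1 p.2 e) : St)) Computable.id (Computable.const [])
    ((comp_stepO ht hD hc).comp Computable.snd)).of_eq fun n => ?_
  induction n with
  | zero => rfl
  | succ n ih => rw [runG, ← ih]

theorem comp_markG {t : ℕ → Option (List Bool)} {cd : ℕ → List Bool → List Bool → Bool}
    {gn : List Bool → ℕ} {ad : List Bool → ℕ × List Bool} {dr it : List Bool → List Bool}
    (ht : Computable t) (hD : Computable (fun x : ℕ × (ℕ × List Bool) => D x.1 x.2))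
    (hc : Computable cs) (hcd : Computable (fun x : ℕ × List Bool × List Bool => cd x.1 x.2.1 x.2.2))
    (hgn : Computable gn) (had : Computable ad) (hdr : Computable dr) (hit : Computable it) :
    Computable (fun x : ℕ × List Bool => D x.1 (ad x.2) || (runG D cs t x.1).any (fun p =>
      decide (p.1 = ad x.2) && cd (gn x.2) (it p.2) (dr x.2))) := by
  refine comp_or (comp_two (D := D) (f := fun x : ℕ × List Bool => x.1) (g := fun x => ad x.2)
    hD Computable.fst (had.comp Computable.snd)) ?_
  refine CL.list_any (f := fun x : ℕ × List Bool => runG D cs t x.1)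
    (p := fun x p => decide (p.1 = ad x.2) && cd (gn x.2) (it p.2) (dr x.2))
    ((comp_runG ht hD hc).comp Computable.fst) ?_
  refine comp_and (f := fun z : (ℕ × List Bool) × ((ℕ × List Bool) × List Bool) =>
    decide (z.2.1 = ad z.1.2)) (g := fun z => cd (gn z.1.2) (it z.2.2) (dr z.1.2))
    (comp_deq (f := fun z : (ℕ × List Bool) × ((ℕ × List Bool) × List Bool) => z.2.1)
      (g := fun z => ad z.1.2) (Computable.fst.comp Computable.snd)
      (had.comp (Computable.snd.comp Computable.fst))) ?_
  have h5 := hcd.comp (Computable.pair (hgn.comp (Computable.snd.comp (Computable.fst (α :=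
    ℕ × List Bool) (β := (ℕ × List Bool) × List Bool)))) (Computable.pair (hit.comp
      (Computable.snd.comp Computable.snd)) (hdr.comp (Computable.snd.comp Computable.fst))))
  exact h5

end

theorem comp_UG {V : ℕ → List Bool → Option (List Bool)} {M : ℕ → List Bool → Bool}
    (hV : Computable (fun x : ℕ × List Bool => V x.1 x.2))
    (hM : Computable (fun x : ℕ × List Bool => M x.1 x.2)) :
    Computable (fun x : ℕ × List Bool =>
      _root_.cond (decide (x.2.take 66 = List.replicate 66 true)) (V x.1 (x.2.drop 66))
        (_root_.cond (decide (x.2.take 1 = [false]) && M x.1 (x.2.drop 1))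
          (some (false :: false :: x.2.drop 1)) none)) := by
  have hd : Primrec (fun x : ℕ × List Bool => x.2.drop 1) := list_drop.comp (Primrec.const 1) snd
  have hd6 : Primrec (fun x : ℕ × List Bool => x.2.drop 66) :=
    list_drop.comp (Primrec.const 66) snd
  refine Computable.cond (comp_deq (f := fun x : ℕ × List Bool => x.2.take 66)
    (g := fun _ => List.replicate 66 true) (list_take.comp (Primrec.const 66) snd).to_comp
    (Computable.const _)) (comp_two (D := V) (f := fun x : ℕ × List Bool => x.1)
      (g := fun x => x.2.drop 66) hV Computable.fst hd6.to_comp)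
    (Computable.cond (comp_and (comp_deq (f := fun x : ℕ × List Bool => x.2.take 1)
      (g := fun _ => [false]) (list_take.comp (Primrec.const 1) snd).to_comp
      (Computable.const _)) (comp_two (D := M) (f := fun x : ℕ × List Bool => x.1)
        (g := fun x => x.2.drop 1) hM Computable.fst hd.to_comp)) ?_
      (Computable.const none))
  exact (option_some.comp (list_cons.comp (Primrec.const false) (list_cons.comp
    (Primrec.const false) hd))).to_comp

theorem stepS_eq (a t : ℕ → Option (List Bool)) (n : ℕ) (S : St) :
    stepS a t n S = (Option.casesOn (motive := fun _ => St) (t n) S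
      (fun e => stepE (deadB a) cands n S e) : St) := by
  unfold stepS
  cases t n with
  | none => rfl
  | some e =>
    show _ = stepE (deadB a) cands n S e
    unfold stepE anyG findG
    simp only
    generalize S.any (fun p => decide (p.2 = e) && !deadB a n p.1) = b
    generalize (cands e).find? (fun c => !deadB a n c && !S.any (fun p => decide (p.1 = c))) = o
    cases b <;> cases o <;> rfl

theorem run_eq (a t : ℕ → Option (List Bool)) (n : ℕ) :
    run a t n = runG (deadB a) cands t n := by
  induction n with
  | zero => rfl
  | succ n ih => rw [run, runG, ih, stepS_eq]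

/-- the cell of a board string -/
def adr (w : List Bool) : ℕ × List Bool := (w.length, w.take (w.length - aa (gN w.length)))

/-- the index of a board string -/
def idx (w : List Bool) : List Bool := w.drop (w.length - aa (gN w.length))

theorem prim_gw : Primrec (fun w : List Bool => gN w.length) := CP3.prim_gN.comp list_length

theorem prim_cut : Primrec (fun w : List Bool => w.length - aa (gN w.length)) :=
  Primrec.nat_sub.comp list_length (CP3.prim_aa.comp prim_gw)

theorem prim_adr : Primrec adr := Primrec.pair list_length (list_take.comp prim_cut Primrec.id)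

theorem prim_idx : Primrec idx := list_drop.comp prim_cut Primrec.id

theorem mark_eq (a t : ℕ → Option (List Bool)) (n : ℕ) (w : List Bool) :
    markB a t n w = (deadB a n (adr w) || (runG (deadB a) cands t n).any (fun p =>
      decide (p.1 = adr w) && code (gN w.length) (item p.2) (idx w))) := by
  rw [← run_eq]
  rfl

theorem comp_mark (h1 : S_CP1) (h2 : S_CP2) (h3 : S_CP3) :
    Computable (fun x : ℕ × List Bool => markB eA eT x.1 x.2) := by
  refine (comp_markG (D := deadB eA) (cs := cands) (t := eT) (cd := code)
    (gn := fun w => gN w.length) (ad := adr) (dr := idx) (it := item) prim_eT.to_comp h3 h1 h2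
    prim_gw.to_comp prim_adr.to_comp prim_idx.to_comp prim_item.to_comp).of_eq fun x => ?_
  exact (mark_eq eA eT x.1 x.2).symm

theorem CPT_proof (h1 : S_CP1) (h2 : S_CP2) (h3 : S_CP3) : S_CPT := by
  refine (comp_UG (V := H544R2.Vn) (M := markB eA eT) H544R2.prim_Vn.to_comp
    (comp_mark h1 h2 h3)).of_eq fun x => ?_
  unfold Un
  generalize markB eA eT x.1 (x.2.drop 1) = m
  generalize H544R2.Vn x.1 (x.2.drop 66) = v
  by_cases ha : x.2.take 66 = List.replicate 66 true
  · rw [if_pos ha, decide_eq_true ha]
    rfl
  · rw [if_neg ha, decide_eq_false ha]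
    by_cases hb : x.2.take 1 = [false]
    · cases m
      · simp
      · simp [hb]
    · rw [if_neg (fun h => hb h.1)]
      simp [hb]

end Pool.Agent.H654R5.PT.CPT
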