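import Pool.Agent.H654R5.PT.Stm

/-!
# Truth-table reductions to the random strings: the positive half from its parts
-/

namespace Pool.Agent.H654R5.PT

open Pool.Agent.H544R2 (IsUniversal randomStrings HALT)

/-- the statement of the positive half -/
def Positive : Prop :=
  ∃ V : List Bool →. List Bool, IsUniversal V ∧ PttReduces HALT (randomStrings V) ∧
    ∀ H : Set (List Bool), REPred (· ∈ H) → PttReduces H (randomStrings V)

theorem item_iff (hGAM : S_GAM) (hINV : S_INV) (hFEW : S_FEW) (hFML : S_FML) (e : List Bool) :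
    (fml e).eval (randomStrings U) ↔ ∃ k y, y ∈ H544R2.Vn k e := by
  rw [hFML e]
  constructor
  · rintro ⟨c, _, n0, hn⟩
    have h1 := (hn n0 le_rfl).1
    obtain ⟨_, ⟨k, _, hk⟩, _⟩ := (hINV eA eT).2.2.2.1 n0 (c, e) h1
    exact hFEW.2.2 e k hk
  · intro h
    exact hGAM eA eT hFEW.1 e (hFEW.2.1 e h)

theorem positive_of (hGAM : S_GAM) (hINV : S_INV) (hFEW : S_FEW) (hUNI : S_UNI) (hFML : S_FML)
    (hPFM : S_PFM) : Positive := by
  have key : ∀ H : Set (List Bool), REPred (· ∈ H) → PttReduces H (randomStrings U) := by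
    intro H hH
    obtain ⟨d, hd⟩ := H544R2.exists_slice hH
    exact ⟨fun x => fml (d ++ x), hPFM d, fun x => by
      rw [hd x, item_iff hGAM hINV hFEW hFML]⟩
  exact ⟨U, hUNI.1, key HALT H544R2.re_HALT, key⟩

end Pool.Agent.H654R5.PT
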