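import Pool.Agent.H856R5.PT.AGR
import Pool.Agent.H45R5.PT.CAP
import Pool.Agent.H880R5.PT.CLS
import Pool.Agent.H493R5.PT.CMP
import Pool.Agent.H831R5.PT.CND
import Pool.Agent.H493R5.PT.COR
import Pool.Agent.H680R5.PT.CP1
import Pool.Agent.H541R5.PT.CP2
import Pool.Agent.H51R5.PT.CP3
import Pool.Agent.H386R5.PT.CYC
import Pool.Agent.H177R2.PT.DED
import Pool.Agent.H19R5.PT.DEG
import Pool.Agent.H856R5.PT.DSG
import Pool.Agent.H177R2.PT.DSP
import Pool.Agent.H856R5.PT.E1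
import Pool.Agent.H368R5.PT.ENC
import Pool.Agent.H493R5.PT.ES
import Pool.Agent.H35R5.PT.FEW
import Pool.Agent.H631R5.PT.FML
import Pool.Agent.H92R5.PT.FRB
import Pool.Agent.H577R5.PT.GAM
import Pool.Agent.H75R5.PT.GUV
import Pool.Agent.H379R5.PT.HAD
import Pool.Agent.H386R5.PT.HYB
import Pool.Agent.H577R5.PT.INV
import Pool.Agent.H415R5.PT.IRS
import Pool.Agent.H45R5.PT.JOH
import Pool.Agent.H409R5.PT.LF
import Pool.Agent.H415R5.PT.MOD
import Pool.Agent.H959R5.PT.NUM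
import Pool.Agent.H879R5.PT.PAD
import Pool.Agent.H692R5.PT.PCA
import Pool.Agent.H8R5.PT.PCN
import Pool.Agent.H575R5.PT.PCO
import Pool.Agent.H180R5.PT.PDS
import Pool.Agent.H692R5.PT.PE1
import Pool.Agent.H233R5.PT.PES
import Pool.Agent.H680R5.PT.PFM
import Pool.Agent.H457R5.PT.PIR
import Pool.Agent.H680R5.PT.PMO
import Pool.Agent.H749R5.PT.PPA
import Pool.Agent.H817R5.PT.PPR
import Pool.Agent.H154R5.PT.PRM
import Pool.Agent.H9R5.PT.PST
import Pool.Agent.H784R5.PT.RES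
import Pool.Agent.H898R5.PT.SPL
import Pool.Agent.H737R5.PT.STR
import Pool.Agent.H989R5.PT.UNI
import Pool.Agent.H654R5.PT.CPT
import Pool.Agent.H654R5.PT.Main

/-!
# Truth-table reductions to the random strings: all parts together
-/

namespace Pool.Agent.H654R5.PT

theorem s_AGR : S_AGR := AGR.AGR_proof

theorem s_CLS : S_CLS := CLS.CLS_proof

theorem s_CP2 : S_CP2 := CP2.CP2_proof

theorem s_CP3 : S_CP3 := CP3.CP3_proof

theorem s_CYC : S_CYC := CYC.CYC_proof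

theorem s_FEW : S_FEW := FEW.FEW_proof

theorem s_FRB : S_FRB := FRB.FRB_proof

theorem s_GUV : S_GUV := GUV.GUV_proof

theorem s_HYB : S_HYB := HYB.HYB_proof

theorem s_INV : S_INV := INV.INV_proof

theorem s_LF : S_LF := LF.LF_proof

theorem s_MOD : S_MOD := MOD.MOD_proof

theorem s_PMO : S_PMO := PMO.PMO_proof

theorem s_PPR : S_PPR := PPR.PPR_proof

theorem s_PRM : S_PRM := PRM.PRM_proof

theorem s_RES : S_RES := RES.RES_proof

theorem s_STR : S_STR := STR.STR_proof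

theorem s_DED : S_DED := DED.DED_proof s_STR

theorem s_DSG : S_DSG := DSG.DSG_proof s_PRM s_LF s_AGR

theorem s_HAD : S_HAD := HAD.HAD_proof s_STR

theorem s_IRS : S_IRS := IRS.IRS_proof s_STR s_MOD

theorem s_NUM : S_NUM := NUM.NUM_proof s_PRM

theorem s_PCN : S_PCN := PCN.PCN_proof s_PMO

theorem s_PST : S_PST := PST.PST_proof s_STR

theorem s_SPL : S_SPL := SPL.SPL_proof s_STR

theorem s_COR : S_COR := COR.COR_proof s_STR s_PRM s_RES s_HAD

theorem s_DEG : S_DEG := DEG.DEG_proof s_IRS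

theorem s_ENC : S_ENC := ENC.ENC_proof s_STR s_PRM s_RES s_HAD

theorem s_PIR : S_PIR := PIR.PIR_proof s_STR s_PST s_PMO

theorem s_PPA : S_PPA := PPA.PPA_proof s_PRM s_PPR s_NUM

theorem s_CND : S_CND := CND.CND_proof s_STR s_MOD s_IRS s_DEG s_CYC s_FRB s_GUV

theorem s_JOH : S_JOH := JOH.JOH_proof s_STR s_COR

theorem s_PCO : S_PCO := PCO.PCO_proof s_PRM s_PPA

theorem s_PDS : S_PDS := PDS.PDS_proof s_PRM s_PPA

theorem s_E1 : S_E1 := E1.E1_proof s_STR s_DSG s_HYB s_JOH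

theorem s_PE1 : S_PE1 := PE1.PE1_proof s_PCO s_PDS

theorem s_ES : S_ES := ES.ES_proof s_STR s_E1 s_CND s_NUM

theorem s_PES : S_PES := PES.PES_proof s_PST s_PPA s_PE1 s_PIR s_PCN

theorem s_CMP : S_CMP := CMP.CMP_proof s_STR s_PRM s_E1 s_ES s_SPL s_NUM

theorem s_PAD : S_PAD := PAD.PAD_proof s_PST s_PPA s_PE1 s_PES

theorem s_DSP : S_DSP := DSP.DSP_proof s_STR s_CMP s_ES s_NUM

theorem s_PCA : S_PCA := PCA.PCA_proof s_PAD s_CLS s_PPA

theorem s_CAP : S_CAP := CAP.CAP_proof s_STR s_CLS s_INV s_DED s_DSP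

theorem s_CP1 : S_CP1 := CP1.CP1_proof s_PCA

theorem s_PFM : S_PFM := PFM.PFM_proof s_PCA s_PCO s_PST s_PPA s_CLS

theorem s_GAM : S_GAM := GAM.GAM_proof s_INV s_CAP

theorem s_CPT : S_CPT := CPT.CPT_proof s_CP1 s_CP2 s_CP3

theorem s_UNI : S_UNI := UNI.UNI_proof s_CPT s_INV

theorem s_FML : S_FML := FML.FML_proof s_STR s_CLS s_INV s_ENC s_UNI s_DSP

theorem positive : Positive := positive_of s_GAM s_INV s_FEW s_UNI s_FML s_PFM

end Pool.Agent.H654R5.PT
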