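import Pool.Agent.H544R2.Defs
import Pool.Agent.NPC.Defs

/-!
# Polynomial-time truth-table reductions
-/

namespace Pool.Agent.H654R5.PT

open Pool.Agent.NPC

/-- Boolean formulas whose atoms are strings -/
inductive BF : Type
  | atom (w : List Bool) : BF
  | fls : BF
  | neg (p : BF) : BF
  | and (p q : BF) : BF
  | or (p q : BF) : BF

/-- the truth value of a formula, where the atom `w` means `w ∈ A` -/
def BF.eval (A : Set (List Bool)) : BF → Prop
  | BF.atom w => w ∈ A
  | BF.fls => False
  | BF.neg p => ¬ p.eval A
  | BF.and p q => p.eval A ∧ q.eval A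
  | BF.or p q => p.eval A ∨ q.eval A

/-- the tree coding a formula -/
def BF.tree : BF → T
  | BF.atom w => T.node T.nil (toT w)
  | BF.fls => T.nil
  | BF.neg p => T.node (T.node T.nil T.nil) p.tree
  | BF.and p q => T.node (T.node T.nil (T.node T.nil T.nil)) (T.node p.tree q.tree)
  | BF.or p q => T.node (T.node (T.node T.nil T.nil) T.nil) (T.node p.tree q.tree)

theorem BF.tree_injective : Function.Injective BF.tree := by
  intro p
  induction p with
  | atom w =>
    intro q h
    cases q <;> simp only [BF.tree, T.node.injEq, reduceCtorEq, false_and, and_false, true_and] at h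
    rw [TEnc.inj h]
  | fls =>
    intro q h
    cases q <;> simp only [BF.tree, reduceCtorEq] at h
    rfl
  | neg p ih =>
    intro q h
    cases q <;> simp only [BF.tree, T.node.injEq, reduceCtorEq, false_and, and_false, true_and] at h
    rw [ih h]
  | and p q ihp ihq =>
    intro r h
    cases r <;> simp only [BF.tree, T.node.injEq, reduceCtorEq, false_and, and_false, true_and] at h
    rw [ihp h.1, ihq h.2]
  | or p q ihp ihq =>
    intro r h
    cases r <;> simp only [BF.tree, T.node.injEq, reduceCtorEq, false_and, and_false, true_and] at h
    rw [ihp h.1, ihq h.2]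

instance : TEnc BF := ⟨BF.tree, BF.tree_injective⟩

/-- Polynomial-time truth-table reducibility: a polynomial-time computable function sends each
input `x` to a Boolean formula over atoms `w ∈ B` which is true exactly if `x ∈ A`. -/
def PttReduces (A B : Set (List Bool)) : Prop :=
  ∃ f : List Bool → BF, PolyTime (fun x => bits (f x)) ∧ ∀ x, x ∈ A ↔ (f x).eval B

/-- The standard halting set: the numbers `e`, in binary, such that the program with the number
`e` halts on the input `e`. -/
def K0 : Set (List Bool) :=
  {x | ∃ e : ℕ, x = Nat.bits e ∧ ((Denumerable.ofNat Nat.Partrec.Code e).eval e).Dom}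

end Pool.Agent.H654R5.PT
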