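import Mathlib
import Pool.Agent.H544R2.Defs
import Pool.Agent.NPC.Dec
import Pool.Agent.NPC.Num
import Pool.Agent.H654R5.PT.Red

/-!
# Truth-table reductions to the random strings: definitions for the positive half

All objects are lists of booleans.  `g` is the binary logarithm of the length `2 ^ g` of an item.
-/

namespace Pool.Agent.H654R5.PT

open Pool.Agent.NPC

/-! ### Strings -/

/-- the list of all strings of length `k` -/
def allStr : ℕ → List (List Bool)
  | 0 => [[]]
  | k + 1 => (allStr k).flatMap (fun s => [false :: s, true :: s])

/-- the finite set of all strings of length `k` -/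
def strs (k : ℕ) : Finset (List Bool) := (allStr k).toFinset

/-- signs -/
def sg (b : Bool) : ℤ := if b then -1 else 1

/-- padding with zeros to length `k` -/
def padTo (k : ℕ) (x : List Bool) : List Bool := x ++ List.replicate (k - x.length) false

/-! ### Parameters -/

/-- binary logarithm of the number of evaluation points -/
def bq (g : ℕ) : ℕ := 3 * g + 10

/-- number of bits of an index into a codeword -/
def aa (g : ℕ) : ℕ := 6 * g + 21

/-- the least prime in a list of numbers starting at `m`, or `0` -/
def leastPrime (m : ℕ) : ℕ :=
  (((List.range m).map (fun i => m + i)).find? (fun p => decide (p.Prime))).getD 0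

/-- the prime modulus: the least prime `≥ 2 ^ (bq g)` -/
def pr (g : ℕ) : ℕ := leastPrime (2 ^ bq g)

/-- the prime for the designs: the least prime `≥ aa g` -/
def qp (g : ℕ) : ℕ := leastPrime (aa g)

/-- number of groups in a design -/
def gg (g : ℕ) : ℕ := 7 * g + 15

/-- seed length -/
def dd (g : ℕ) : ℕ := gg g * (aa g * qp g)

/-! ### The code: polynomials with coefficients 0 and 1 over a prime field, and Hadamard -/

/-- the value at `α` of the polynomial with coefficients `x`, modulo `p` -/
def resid (p : ℕ) (x : List Bool) (α : ℕ) : ℕ :=
  x.foldr (fun b acc => (b.toNat + α * acc) % p) 0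

/-- inner product modulo 2 of the binary expansion of `u` and the string `l` -/
def dot (u : ℕ) (l : List Bool) : Bool :=
  (List.range l.length).foldr (fun i acc => xor (u.testBit i && l.getD i false) acc) false

/-- the bit with index `z` of the codeword of `x` -/
def code (g : ℕ) (x z : List Bool) : Bool :=
  dot (resid (pr g) x (valB (z.take (bq g)))) (z.drop (bq g))

/-! ### Weak designs -/

/-- the value at `l` of the polynomial over `ZMod q` whose coefficients are the digits of `j` -/
def peval (q f j l : ℕ) : ℕ :=
  (List.range f).foldr (fun r acc => (j / q ^ r % q + l * acc) % q) 0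

/-- the `j`-th set of the group `γ`, for sets of size `a` -/
def dset (q a f γ j : ℕ) : List ℕ :=
  (List.range a).map (fun l => γ * (a * q) + (l * q + peval q f j l))

/-- the greatest number `≤ m` of the form `c * q ^ r`, `1 ≤ c < q` -/
def lf (q m : ℕ) : ℕ := m / q ^ Nat.log q m * q ^ Nat.log q m

/-- sizes of the groups for the budget `B` -/
def gsz (q : ℕ) : ℕ → ℕ → List ℕ
  | 0, _ => []
  | f + 1, B => if B < 3 then [] else lf q (B / 3) :: gsz q f (B - lf q (B / 3))

/-- the sets of the design for the budget `B` -/
def dsg (g B : ℕ) : List (List ℕ) :=
  (gsz (qp g) (gg g) B).zipIdx.flatMap (fun p =>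
    (List.range p.1).map (fun j => dset (qp g) (aa g) (g + 2) p.2 j))

/-- The extractor: `τ` bits, input `x`, seed `s`, budget `B`. -/
def E1 (g B τ : ℕ) (x s : List Bool) : List Bool :=
  ((dsg g B).take τ).map (fun S => code g x (S.map (fun k => s.getD k false)))

/-! ### Condensers: polynomials over the field with two elements as lists of coefficients -/

/-- exclusive or of two strings -/
def xorL (u v : List Bool) : List Bool := List.zipWith xor u v

/-- one step of the reduction modulo the monic polynomial `h` (top coefficient last) -/
def remStep (h : List Bool) (b : Bool) (acc : List Bool) : List Bool :=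
  if (b :: acc).getLastD false then (xorL (b :: acc) h).take (h.length - 1)
  else (b :: acc).take (h.length - 1)

/-- the remainder of `f` modulo the monic polynomial `h`, a string of length `h.length - 1` -/
def pmod (h f : List Bool) : List Bool :=
  f.foldr (remStep h) (List.replicate (h.length - 1) false)

/-- the monic polynomials of degree `d` -/
def monics (d : ℕ) : List (List Bool) := (allStr d).map (fun s => s ++ [true])

/-- irreducibility test for a monic polynomial, by trial division -/
def irrT (h : List Bool) : Bool :=
  (List.range (h.length - 1)).all (fun d => d == 0 || (monics d).all (fun k =>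
    decide (pmod k h ≠ List.replicate d false)))

/-- the monic irreducible polynomials of degree between `1` and `c` -/
def irrs (c : ℕ) : List (List Bool) :=
  ((List.range (c + 1)).flatMap (fun d => if d = 0 then [] else monics d)).filter irrT

/-- exponent of the cyclotomic polynomial -/
def NN (g : ℕ) : ℕ := 3 ^ (g + 1)

/-- the polynomial `x` with `Y` replaced by `Y ^ (2 ^ j)`, modulo `Y ^ N - 1` -/
def frob (N j : ℕ) (x : List Bool) : List Bool :=
  (List.range N).map (fun i => x.getD (i * ((N + 1) / 2) ^ j % N) false)

/-- the condenser: the remainders modulo `h` of the powers `x ^ (2 ^ j)`, `j < μ` -/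
def cond (μ N c : ℕ) (h x : List Bool) : List Bool :=
  (List.range μ).flatMap (fun j => padTo c (pmod h (frob N j x)))

/-- logarithm of the item length for the small extractor -/
def gS (g : ℕ) : ℕ := 4 * Nat.size g + 40

/-- degree bound of the moduli of the condenser -/
def cS (g : ℕ) : ℕ := 5 * g + 34

/-- logarithm of the size of the sources for which `es g τ` works -/
def kap (g τ : ℕ) : ℕ := τ + dd (gS g) + 3 * gS g + 12

/-- the disperser for small sources: all `τ`-bit outputs of `x` -/
def es (g τ : ℕ) (x : List Bool) : List (List Bool) :=
  (irrs (cS g)).flatMap (fun h => (allStr (dd (gS g))).map (fun s =>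
    E1 (gS g) (τ + 2) τ (padTo (2 ^ gS g) (cond (kap g τ) (NN g) (cS g) h x)) s))

/-! ### The disperser -/

/-- entropy of the suffix in the composition -/
def K2 (g : ℕ) : ℕ := kap g (dd g) + 1

/-- number of padding bits -/
def padN (g : ℕ) : ℕ := 2 * g + 19 + dd (gS g) + 3 * gS g

/-- above this number of output bits, the composition is used -/
def nu1 (g : ℕ) : ℕ := K2 g + dd g + 5 * g + 17

/-- budget of the first extractor in the composition, for `ν` output bits -/
def B0 (g ν : ℕ) : ℕ := ν - g - 4 - K2 g - dd g - 4 * g - 11

/-- number of output bits of the second part of the composition -/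
def tau2 (g : ℕ) : ℕ := K2 g + dd g + 3 * g + 10 - dd (gS g) - 3 * gS g - 12

/-- the composition -/
def compo (g ν : ℕ) (x : List Bool) : List (List Bool) :=
  (List.range (2 ^ g)).flatMap (fun i =>
    (es g (dd g) (padTo (2 ^ g) (x.drop i))).flatMap (fun s =>
      (es g (tau2 g) x).map (fun z =>
        E1 g (B0 g ν) (B0 g ν - 2) (padTo (2 ^ g) (x.take i)) s ++ z)))

/-- the main part of the addresses -/
def mainPart (g ν : ℕ) (x : List Bool) : List (List Bool) :=
  if ν ≤ nu1 g then es g (ν - padN g) x else compo g ν x

/-- the candidate addresses (strings of length `ν`) of the item `x` (a string of length `2 ^ g`) -/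
def addr (g ν : ℕ) (x : List Bool) : List (List Bool) :=
  if ν ≤ padN g then allStr ν
  else (mainPart g ν x).flatMap (fun z => (allStr (padN g)).map (fun s => z ++ s))

end Pool.Agent.H654R5.PT
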