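import Pool.Agent.H654R5.PT.Defs
import Pool.Agent.H544R2.Halt

/-!
# Truth-table reductions to the random strings: the strategy

The board consists of the strings `00w`; a board string is represented by `w`.  The strings `w` of
length `N` belong to the items of the class `gN N`: the first `N - aa g` bits are the address of a
cell (a block of `2 ^ aa g` strings), the last `aa g` bits are an index into a codeword.
-/

namespace Pool.Agent.H654R5.PT

open Pool.Agent.NPC

/-- the class of the level `N`: twice the greatest power of two dividing `N` -/
def gN (N : ℕ) : ℕ := 2 ^ (padicValNat 2 N + 1)

/-- the class of an item of length `m`: the least `g = 2, 4, 8, …` with `m < 2 ^ g` -/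
def gI (m : ℕ) : ℕ :=
  (((List.range (Nat.size m + 1)).map (fun i => 2 ^ (i + 1))).find?
    (fun g => decide (Nat.size m ≤ g))).getD 2

/-- the item `e` padded to length `2 ^ gI` -/
def item (e : List Bool) : List Bool := padTo (2 ^ gI e.length) (e ++ [true])

/-- the levels for items of length `m`, in decreasing order -/
def lvls (m : ℕ) : List ℕ :=
  ((List.range (m + aa (gI m) + gI m + 5)).filter (fun N =>
    decide (N % gI m = gI m / 2) && decide (aa (gI m) < N))).reverse

/-- the candidate cells of an item, in order of preference -/
def cands (e : List Bool) : List (ℕ × List Bool) :=
  (lvls e.length).flatMap (fun N =>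
    (addr (gI e.length) (N - aa (gI e.length)) (item e)).map (fun c => (N, c)))

/-- the board strings spoiled by the adversary before stage `n` -/
def spoiled (enA : ℕ → Option (List Bool)) (n : ℕ) : List (List Bool) :=
  (List.range n).filterMap enA

/-- The cell is dead at stage `n`: more than an eighth of its strings is spoiled. -/
def deadB (enA : ℕ → Option (List Bool)) (n : ℕ) (p : ℕ × List Bool) : Bool :=
  decide (2 ^ aa (gN p.1) <
    8 * ((allStr (aa (gN p.1))).filter (fun z => decide (p.2 ++ z ∈ spoiled enA n))).length)

/-- one step of the strategy: the item `enT n` gets a new cell if it has no living one -/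
def stepS (enA enT : ℕ → Option (List Bool)) (n : ℕ) (S : List ((ℕ × List Bool) × List Bool)) :
    List ((ℕ × List Bool) × List Bool) :=
  match enT n with
  | none => S
  | some e =>
    if S.any (fun p => decide (p.2 = e) && !deadB enA n p.1) then S
    else match (cands e).find? (fun c => !deadB enA n c && !S.any (fun p => decide (p.1 = c))) with
      | none => S
      | some c => (c, e) :: S

/-- the state of the strategy: the list of the assignments (cell, item) -/
def run (enA enT : ℕ → Option (List Bool)) : ℕ → List ((ℕ × List Bool) × List Bool)
  | 0 => []
  | n + 1 => stepS enA enT n (run enA enT n)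

/-- The board string `w` is marked by the strategy at stage `n`. -/
def markB (enA enT : ℕ → Option (List Bool)) (n : ℕ) (w : List Bool) : Bool :=
  deadB enA n (w.length, w.take (w.length - aa (gN w.length))) ||
  (run enA enT n).any (fun p =>
    decide (p.1 = (w.length, w.take (w.length - aa (gN w.length)))) &&
    code (gN w.length) (item p.2) (w.drop (w.length - aa (gN w.length))))

/-- the adversary spoils few strings of each length -/
def Few (enA : ℕ → Option (List Bool)) : Prop :=
  ∀ (N : ℕ) (F : Finset (List Bool)), (∀ w ∈ F, w.length = N ∧ ∃ n, enA n = some w) →
    1024 * F.card ≤ 2 ^ N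

/-- the adversary: the board strings with short programs of the reference machine -/
def eA (n : ℕ) : Option (List Bool) :=
  (Encodable.decode n : Option (List Bool × ℕ)).bind fun x =>
    (H544R2.Vn x.2 x.1).bind fun y =>
      if x.1.length + 66 < y.length ∧ y.take 2 = [false, false] then some (y.drop 2) else none

/-- the items: the domain of the reference machine -/
def eT (n : ℕ) : Option (List Bool) :=
  (Encodable.decode n : Option (List Bool × ℕ)).bind fun x =>
    if (H544R2.Vn x.2 x.1).isSome = true then some x.1 else none

/-- `k` steps of the machine -/
def Un (k : ℕ) (p : List Bool) : Option (List Bool) :=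
  if p.take 66 = List.replicate 66 true then H544R2.Vn k (p.drop 66)
  else if p.take 1 = [false] ∧ markB eA eT k (p.drop 1) = true then
    some (false :: false :: p.drop 1)
  else none

/-- the universal machine -/
def U : List Bool →. List Bool := fun p => Nat.rfindOpt (fun k => Un k p)

/-! ### The reduction -/

/-- disjunction of a list of formulas -/
def bigOr (l : List BF) : BF := l.foldr BF.or BF.fls

/-- conjunction of a list of formulas -/
def bigAnd (l : List BF) : BF := l.foldr BF.and (BF.neg BF.fls)

/-- The formula which says that the cell `p` carries the codeword of the item `e`. -/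
def phi (e : List Bool) (p : ℕ × List Bool) : BF :=
  BF.and
    (bigAnd (((allStr (aa (gI e.length))).filter (fun z => code (gI e.length) (item e) z)).map
      (fun z => BF.neg (BF.atom (false :: false :: (p.2 ++ z))))))
    (bigOr (((allStr (aa (gI e.length))).filter (fun z => !code (gI e.length) (item e) z)).map
      (fun z => BF.atom (false :: false :: (p.2 ++ z)))))

/-- the formula for the item `e` -/
def fml (e : List Bool) : BF := bigOr ((cands e).map (phi e))

end Pool.Agent.H654R5.PT
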