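import Pool.Agent.H654R5.PT.Defs2
import Pool.Agent.H671R2.PolyAuto

/-!
# Truth-table reductions to the random strings: the statements of the tasks
-/

namespace Pool.Agent.H654R5.PT

open Pool.Agent.NPC

/-! ### Strings, primes -/

def S_STR : Prop :=
  (∀ k s, s ∈ allStr k ↔ s.length = k) ∧ (∀ k, (allStr k).Nodup) ∧
  (∀ k, (allStr k).length = 2 ^ k) ∧ (∀ k s, s ∈ strs k ↔ s.length = k) ∧
  (∀ k, (strs k).card = 2 ^ k)

def S_PRM : Prop := ∀ m, 2 ≤ m → (leastPrime m).Prime ∧ m ≤ leastPrime m ∧ leastPrime m < 2 * m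

/-! ### The code -/

/-- few common values of two polynomials, and no common zeros of many points -/
def S_RES : Prop := ∀ (p : ℕ) (x y : List Bool) (Q : ℕ), p.Prime → Q ≤ p → x.length = y.length →
  (∀ α, resid p x α < p) ∧
  (x ≠ y → ((Finset.range Q).filter (fun α => resid p x α = resid p y α)).card < x.length) ∧
  (true ∈ x → ((Finset.range Q).filter (fun α => resid p x α = 0)).card < x.length)

/-- orthogonality of the Hadamard codewords of numbers `< 2 ^ k` -/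
def S_HAD : Prop := ∀ (k u v : ℕ), u < 2 ^ k → v < 2 ^ k →
  (u ≠ v → ∑ l ∈ strs k, sg (dot u l) * sg (dot v l) = 0) ∧
  (u ≠ 0 → 2 * ((strs k).filter (fun l => dot u l = true)).card = 2 ^ k) ∧
  (u ≠ 0 → u ≠ v → 2 ^ k ≤ 4 * ((strs k).filter (fun l => dot u l = true ∧ dot v l = false)).card)

def S_COR : Prop := ∀ (g : ℕ) (x y : List Bool), x.length = 2 ^ g → y.length = 2 ^ g → x ≠ y →
  |∑ z ∈ strs (aa g), sg (code g x z) * sg (code g y z)| * 2 ^ (2 * g + 10) ≤ 2 ^ aa g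

def S_ENC : Prop := ∀ (g : ℕ) (x y : List Bool), x.length = 2 ^ g → y.length = 2 ^ g → true ∈ x →
  (x ≠ y → 2 ^ aa g <
    8 * ((strs (aa g)).filter (fun z => code g x z = true ∧ code g y z = false)).card) ∧
  2 ^ aa g < 8 * ((strs (aa g)).filter (fun z => code g x z = true)).card ∧
  2 ^ aa g < 8 * ((strs (aa g)).filter (fun z => code g x z = false)).card

/-- Johnson bound: few codewords correlate with a given bounded function -/
def S_JOH : Prop := ∀ (g t : ℕ), 1 ≤ t → t ≤ 2 ^ (g + 1) → ∀ (ψ : List Bool → ℚ),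
  (∀ z, |ψ z| ≤ 1) → ∀ X : Finset (List Bool), (∀ x ∈ X, x.length = 2 ^ g) →
  (∀ x ∈ X, (2 ^ aa g : ℚ) ≤ 4 * t * ∑ z ∈ strs (aa g), (sg (code g x z) : ℚ) * ψ z) →
  X.card ≤ 32 * t ^ 2

/-! ### Designs -/

def S_LF : Prop := ∀ q m, 2 ≤ q → 1 ≤ m → lf q m ≤ m ∧ m < 2 * lf q m ∧
  ∃ c r, 1 ≤ c ∧ c < q ∧ q ^ r ≤ m ∧ lf q m = c * q ^ r

/-- number of agreements in a group, weighted -/
def S_AGR : Prop := ∀ q f a c r j, q.Prime → a ≤ q → 1 ≤ c → c < q → r < f → j < c * q ^ r →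
  ∑ j' ∈ (Finset.range (c * q ^ r)).erase j,
    2 ^ ((Finset.range a).filter (fun l => peval q f j l = peval q f j' l)).card ≤
      3 * (c * q ^ r)

/-- the number of common elements of two lists -/
def inter (S T : List ℕ) : ℕ := (S.filter (fun k => decide (k ∈ T))).length

def S_DSG : Prop := ∀ g B, B ≤ 2 ^ (g + 1) →
  (∀ S ∈ dsg g B, S.length = aa g ∧ S.Nodup ∧ ∀ k ∈ S, k < dd g) ∧
  B ≤ (dsg g B).length + 2 ∧
  ∀ i < (dsg g B).length,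
    ∑ j ∈ Finset.range i, 2 ^ inter ((dsg g B).getD i []) ((dsg g B).getD j []) ≤ B

/-! ### The extractor -/

open Classical in
/-- the hybrid argument, in abstract form -/
def S_HYB : Prop := ∀ {ι : Type} (t d a B L : ℕ) (S : Fin t → Fin a → Fin d)
  (C : ι → (Fin a → Bool) → Bool) (W : Finset (Fin t → Bool)) (X : Finset ι),
  1 ≤ t → (∀ i, Function.Injective (S i)) →
  (∀ i : Fin t, ∑ j ∈ Finset.univ.filter (fun j => j < i),
    2 ^ (Finset.univ.filter (fun l => ∃ l', S i l = S j l')).card ≤ B) →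
  (∀ x ∈ X, (W.card : ℚ) / 2 ^ t + 1 / 8 ≤
    ((Finset.univ.filter (fun s : Fin d → Bool => (fun i => C x (fun l => s (S i l))) ∈ W)).card :
      ℚ) / 2 ^ d) →
  (∀ (ψ : (Fin a → Bool) → ℚ), (∀ z, |ψ z| ≤ 1) → ∀ Y ⊆ X,
    (∀ x ∈ Y, (2 ^ a : ℚ) ≤ 4 * t * ∑ z, (sg (C x z) : ℚ) * ψ z) → Y.card ≤ L) →
  X.card ≤ t * 2 ^ d * 2 ^ B * L

def S_E1 : Prop := ∀ (g B τ : ℕ), 1 ≤ τ → τ + 2 ≤ B → B ≤ 2 ^ (g + 1) →
  (∀ x s, (E1 g B τ x s).length = τ) ∧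
  ∀ (W X : Finset (List Bool)), W ⊆ strs τ → X ⊆ strs (2 ^ g) →
    (∀ x ∈ X, 8 * W.card * 2 ^ dd g + 2 ^ τ * 2 ^ dd g ≤
      8 * 2 ^ τ * ((strs (dd g)).filter (fun s => E1 g B τ x s ∈ W)).card) →
    X.card ≤ 2 ^ (3 * g + 8 + dd g + B)

/-! ### The condenser -/

/-- the polynomial with the coefficients `l` -/
noncomputable def toP (l : List Bool) : Polynomial (ZMod 2) :=
  ∑ i ∈ Finset.range l.length, if l.getD i false then Polynomial.X ^ i else 0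

def S_MOD : Prop := ∀ (k f : List Bool),
  (pmod (k ++ [true]) f).length = k.length ∧
  (toP (k ++ [true])).Monic ∧ (toP (k ++ [true])).natDegree = k.length ∧
  toP (pmod (k ++ [true]) f) = toP f %ₘ toP (k ++ [true])

def S_IRS : Prop := ∀ c : ℕ,
  (∀ h ∈ irrs c, (∃ k, h = k ++ [true]) ∧ 2 ≤ h.length ∧ h.length ≤ c + 1 ∧
    Irreducible (toP h)) ∧
  (irrs c).Nodup ∧
  (∀ P : Polynomial (ZMod 2), P.Monic → Irreducible P → P.natDegree ≤ c →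
    ∃ h ∈ irrs c, toP h = P)

def S_DEG : Prop := ∀ c : ℕ, 1 ≤ c → 2 ^ c ≤ ((irrs c).map (fun h => h.length - 1)).sum

def S_CYC : Prop := ∀ l : ℕ, Irreducible (Polynomial.cyclotomic (3 ^ (l + 1)) (ZMod 2)) ∧
  (Polynomial.cyclotomic (3 ^ (l + 1)) (ZMod 2)).natDegree = 2 * 3 ^ l

def S_FRB : Prop := ∀ (N j : ℕ) (x : List Bool), N % 2 = 1 → x.length ≤ N →
  (frob N j x).length = N ∧
  (Polynomial.X ^ N - 1 : Polynomial (ZMod 2)) ∣ toP (frob N j x) - toP x ^ 2 ^ j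

open Classical in
/-- the condenser in abstract form -/
def S_GUV : Prop := ∀ (μ n N : ℕ) (E : Polynomial (ZMod 2)) (H : Finset (Polynomial (ZMod 2)))
  (X : Finset (Polynomial (ZMod 2))) (F : ℕ → Polynomial (ZMod 2) → Polynomial (ZMod 2)),
  Irreducible E → E ∉ H → E ∣ Polynomial.X ^ N - 1 → n ≤ E.natDegree →
  (∀ P ∈ X, P.degree < n) → X.card = 2 ^ μ →
  (∀ P ∈ X, ∀ j, (F j P).degree < N ∧ (Polynomial.X ^ N - 1) ∣ F j P - P ^ 2 ^ j) →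
  (∀ h ∈ H, h.Monic ∧ Irreducible h) → 1 ≤ N → 1 ≤ μ →
  2 * μ * N ≤ ∑ h ∈ H, h.natDegree →
  ∃ h ∈ H, 2 ^ μ ≤ 2 * (X.image (fun P => fun j : Fin μ => F j P %ₘ h)).card

def S_CND : Prop := ∀ (g μ c : ℕ) (X : Finset (List Bool)), X ⊆ strs (2 ^ g) → 1 ≤ c →
  2 ^ μ ≤ X.card → 2 * μ * NN g + 2 * 3 ^ g ≤ 2 ^ c →
  (∀ h ∈ irrs c, ∀ x, (cond μ (NN g) c h x).length = μ * c) ∧
  ∃ h ∈ irrs c, 2 ^ μ ≤ 2 * (X.image (cond μ (NN g) c h)).card

/-! ### The disperser for small sources -/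

/-- numerical facts -/
def S_NUM : Prop := ∀ g, 1 ≤ g →
  dd g ≤ 2 ^ 15 * g ^ 3 ∧ dd (gS g) ≤ 2 ^ 26 * g ∧ nu1 g ≤ 2 ^ 28 * g ^ 3 ∧
  tau2 g ≤ 2 ^ 28 * g ^ 3 ∧ tau2 g = 2 * dd g + 3 * g + 11 ∧ 2 ^ g + g + 3 ≤ max (2 ^ (g + 1)) (padN g) ∧
  ∀ τ ≤ 2 ^ 28 * g ^ 3, kap g τ * cS g ≤ 2 ^ gS g ∧
    2 * kap g τ * NN g + 2 * 3 ^ g ≤ 2 ^ cS g ∧
    τ + 2 ≤ 2 ^ (gS g + 1)

open Classical in
def S_ES : Prop := ∀ g τ, 1 ≤ g → 1 ≤ τ → τ ≤ 2 ^ 28 * g ^ 3 →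
  (∀ x, ∀ z ∈ es g τ x, z.length = τ) ∧
  ∀ X ⊆ strs (2 ^ g), 2 ^ kap g τ ≤ X.card →
    7 * 2 ^ τ < 8 * (X.biUnion (fun x => (es g τ x).toFinset)).card

/-! ### Composition -/

/-- splitting a source into a prefix and a suffix with many values -/
def S_SPL : Prop := ∀ (n T : ℕ) (X : Finset (List Bool)), X ⊆ strs n → 2 ≤ T → T ≤ X.card →
  ∃ i < n, ∃ U : Finset (List Bool),
    (∀ u ∈ U, u.length = i ∧ T ≤ ((strs (n - i)).filter (fun v => u ++ v ∈ X)).card) ∧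
    X.card ≤ 2 * T * n * U.card

open Classical in
def S_CMP : Prop := ∀ g ν, 1 ≤ g → nu1 g < ν → ν ≤ 2 ^ (g + 1) →
  (∀ x, ∀ z ∈ compo g ν x, z.length = ν - padN g) ∧
  ∀ X ⊆ strs (2 ^ g), 2 ^ (ν - g - 4) ≤ X.card →
    2 ^ (ν - padN g) < 2 * (X.biUnion (fun x => (compo g ν x).toFinset)).card

open Classical in
/-- the disperser -/
def S_DSP : Prop := ∀ g ν, 1 ≤ g → ν ≤ 2 ^ g + g + 3 →
  (∀ x, ∀ z ∈ addr g ν x, z.length = ν) ∧
  ∀ X ⊆ strs (2 ^ g), 2 ^ (ν - g - 4) ≤ X.card →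
    2 ^ ν < 2 * (X.biUnion (fun x => (addr g ν x).toFinset)).card

/-! ### The strategy -/

def S_CLS : Prop := (∀ m, m < 2 ^ gI m ∧ (∃ i, gI m = 2 ^ (i + 1)) ∧ 2 ^ gI m ≤ (m + 2) ^ 2) ∧
  (∀ m N, N ∈ lvls m ↔ (gN N = gI m ∧ aa (gI m) < N ∧ N < m + aa (gI m) + gI m + 5)) ∧
  (∀ m, ∃ N ∈ lvls m, m + aa (gI m) + 5 ≤ N ∧ ∀ N' ∈ lvls m, N' ≤ N) ∧
  (∀ m N, N ∈ lvls m → (∃ N' ∈ lvls m, N < N') → N + gI m ∈ lvls m) ∧
  (∀ e, (item e).length = 2 ^ gI e.length ∧ true ∈ item e) ∧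
  (∀ e e', gI e.length = gI e'.length → item e = item e' → e = e')

/-- a cell is blocked at stage `n` -/
def Blk (a : ℕ → Option (List Bool)) (t : ℕ → Option (List Bool)) (n : ℕ) (c : ℕ × List Bool) :
    Prop := deadB a n c = true ∨ ∃ p ∈ run a t n, p.1 = c

def S_INV : Prop := ∀ (a t : ℕ → Option (List Bool)),
  (∀ n m c, n ≤ m → deadB a n c = true → deadB a m c = true) ∧
  (∀ n m, n ≤ m → run a t n <:+ run a t m) ∧
  (∀ n, ((run a t n).map Prod.fst).Nodup) ∧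
  (∀ n, ∀ p ∈ run a t n, p.1 ∈ cands p.2 ∧ (∃ k < n, t k = some p.2) ∧
    ∀ c ∈ cands p.2, p.1.1 < c.1 → Blk a t n c) ∧
  (∀ n e, ∃ p : ℕ × List Bool, ∀ q ∈ run a t n, q.2 = e → q.1 ≠ p → deadB a n q.1 = true)

open Classical in
/-- few cells of a level are dead -/
def S_DED : Prop := ∀ a, Few a → ∀ n N, aa (gN N) < N →
  64 * ((strs (N - aa (gN N))).filter (fun c => deadB a n (N, c) = true)).card ≤
    2 ^ (N - aa (gN N))

/-- no item fails -/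
def S_CAP : Prop := ∀ a t, Few a → ∀ n e, (∃ k < n, t k = some e) →
  ∃ c ∈ cands e, ¬ Blk a t n c

def S_GAM : Prop := ∀ a t, Few a → ∀ e, (∀ m, ∃ n, m ≤ n ∧ t n = some e) →
  ∃ c ∈ cands e, ∃ n0, ∀ n, n0 ≤ n → (c, e) ∈ run a t n ∧ deadB a n c = false

/-! ### The machine -/

def S_FEW : Prop := Few eA ∧ (∀ z, (∃ k y, y ∈ H544R2.Vn k z) →
  ∀ m, ∃ n, m ≤ n ∧ eT n = some z) ∧ (∀ z n, eT n = some z → ∃ k y, y ∈ H544R2.Vn k z)

def S_CP1 : Prop := Computable (fun e : List Bool => cands e)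

def S_CP2 : Prop := Computable (fun x : ℕ × List Bool × List Bool => code x.1 x.2.1 x.2.2)

def S_CP3 : Prop := Computable (fun x : ℕ × (ℕ × List Bool) => deadB eA x.1 x.2)

def S_CPT : Prop := Computable (fun x : ℕ × List Bool => Un x.1 x.2)

def S_UNI : Prop := H544R2.IsUniversal U ∧ ∀ w : List Bool,
  (false :: false :: w ∉ H544R2.randomStrings U ↔
    (∃ n, eA n = some w) ∨ ∃ n, markB eA eT n w = true)

/-- meaning of the formula -/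
def S_FML : Prop := ∀ e : List Bool, (fml e).eval (H544R2.randomStrings U) ↔
  ∃ c ∈ cands e, ∃ n0, ∀ n, n0 ≤ n → (c, e) ∈ run eA eT n ∧ deadB eA n c = false

/-! ### Polynomial time -/

/-- a parameter whose power of two is polynomially bounded -/
def LogPar {α : Type} [TEnc α] (k : α → ℕ) : Prop := UPoly k ∧ UPoly (fun a => 2 ^ k a)

def S_PST : Prop := ∀ {α : Type} [TEnc α] (k : α → ℕ), LogPar k → NPC.Poly (fun a => allStr (k a))

def S_PPR : Prop := ∀ {α : Type} [TEnc α] (m : α → ℕ), UPoly m → UPoly (fun a => leastPrime (m a))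

def S_PPA : Prop := ∀ {α : Type} [TEnc α] (g : α → ℕ), LogPar g →
  LogPar (fun a => bq (g a)) ∧ LogPar (fun a => aa (g a)) ∧ UPoly (fun a => pr (g a)) ∧
  UPoly (fun a => qp (g a)) ∧ UPoly (fun a => gg (g a)) ∧ UPoly (fun a => dd (g a)) ∧
  LogPar (fun a => gS (g a)) ∧ LogPar (fun a => dd (gS (g a))) ∧ LogPar (fun a => cS (g a)) ∧
  UPoly (fun a => NN (g a)) ∧ LogPar (fun a => padN (g a)) ∧ UPoly (fun a => nu1 (g a)) ∧
  UPoly (fun a => tau2 (g a)) ∧ UPoly (fun a => K2 (g a))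

def S_PCO : Prop := ∀ {α : Type} [TEnc α] (g : α → ℕ) (x z : α → List Bool), LogPar g →
  NPC.Poly x → NPC.Poly z → NPC.Poly (fun a => code (g a) (x a) (z a))

def S_PDS : Prop := ∀ {α : Type} [TEnc α] (g B : α → ℕ), LogPar g → UPoly B →
  NPC.Poly (fun a => dsg (g a) (B a))

def S_PE1 : Prop := ∀ {α : Type} [TEnc α] (g B τ : α → ℕ) (x s : α → List Bool), LogPar g →
  UPoly B → UPoly τ → NPC.Poly x → NPC.Poly s →
  NPC.Poly (fun a => E1 (g a) (B a) (τ a) (x a) (s a))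

def S_PMO : Prop := ∀ {α : Type} [TEnc α] (h f : α → List Bool), NPC.Poly h → NPC.Poly f →
  NPC.Poly (fun a => pmod (h a) (f a))

def S_PIR : Prop := ∀ {α : Type} [TEnc α] (c : α → ℕ), LogPar c → NPC.Poly (fun a => irrs (c a))

def S_PCN : Prop := ∀ {α : Type} [TEnc α] (μ N c : α → ℕ) (h x : α → List Bool), UPoly μ →
  UPoly N → UPoly c → NPC.Poly h → NPC.Poly x →
  NPC.Poly (fun a => cond (μ a) (N a) (c a) (h a) (x a))

def S_PES : Prop := ∀ {α : Type} [TEnc α] (g τ : α → ℕ) (x : α → List Bool), LogPar g →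
  UPoly τ → NPC.Poly x → NPC.Poly (fun a => es (g a) (τ a) (x a))

def S_PAD : Prop := ∀ {α : Type} [TEnc α] (g ν : α → ℕ) (x : α → List Bool), LogPar g →
  UPoly ν → NPC.Poly x → NPC.Poly (fun a => addr (g a) (ν a) (x a))

def S_PCA : Prop := NPC.Poly (fun e : List Bool => cands e)

def S_PFM : Prop := ∀ d : List Bool, PolyTime (fun x : List Bool => bits (fml (d ++ x)))

end Pool.Agent.H654R5.PT
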